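import Pool.Agent.W810.SYN.Stm

/-! Hardy type inequality. -/

set_option autoImplicit false

namespace Pool.Agent.W584.SYN.HAR

open MeasureTheory AddCircle Filter Topology Pool.Agent.Results.MP_535799_an.NonSidon
open Pool.Agent.W810.SYN

noncomputable section

/-- the kernel -/
def KN (N : ℕ) (t : Circ) : ℂ := ∑ n ∈ Finset.Icc (-(N : ℤ) - 1) N, Gc N n * (fourier (-n) t : ℂ)

lemma cN_eq (f : L1) (N : ℕ) : cN f N = ∫ t, KN N t * f t ∂mu := by
  have hint : ∀ n : ℤ, Integrable (fun t => (fourier (-n) t : ℂ) • f t) mu :=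
    fun n => (L1.integrable_coeFn f).fourier_smul (-n)
  calc cN f N = ∑ n ∈ Finset.Icc (-(N : ℤ) - 1) N, ∫ t, Gc N n * ((fourier (-n) t : ℂ) • f t) ∂mu := by
        unfold cN coeff fourierCoeff
        refine Finset.sum_congr rfl (fun n _ => ?_)
        rw [integral_const_mul]
    _ = ∫ t, ∑ n ∈ Finset.Icc (-(N : ℤ) - 1) N, Gc N n * ((fourier (-n) t : ℂ) • f t) ∂mu :=
        (integral_finsetSum _ (fun n _ => (hint n).const_mul _)).symm
    _ = _ := by
        congr 1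
        ext t
        unfold KN
        rw [Finset.sum_mul]
        refine Finset.sum_congr rfl (fun n _ => ?_)
        rw [smul_eq_mul, mul_assoc]

lemma sum_sym (g : ℤ → ℂ) (N : ℕ) : ∑ n ∈ Finset.Icc (-(N : ℤ) - 1) N, g n =
    ∑ n ∈ Finset.range (N + 1), (g (n : ℤ) + g (-(n : ℤ) - 1)) := by
  induction N with
  | zero =>
    have : Finset.Icc (-((0 : ℕ) : ℤ) - 1) ((0 : ℕ) : ℤ) = {-1, 0} := by
      ext x; simp only [Finset.mem_Icc, Finset.mem_insert, Finset.mem_singleton]; omega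
    rw [this, Finset.sum_pair (by norm_num)]
    simp [add_comm]
  | succ N ih =>
    have : Finset.Icc (-((N + 1 : ℕ) : ℤ) - 1) ((N + 1 : ℕ) : ℤ) =
        insert ((N + 1 : ℕ) : ℤ) (insert (-((N + 1 : ℕ) : ℤ) - 1) (Finset.Icc (-(N : ℤ) - 1) N)) := by
      ext x
      simp only [Finset.mem_Icc, Finset.mem_insert]
      push_cast
      omega
    rw [this, Finset.sum_insert, Finset.sum_insert, ih, Finset.sum_range_succ _ (N + 1)]
    · ring
    · simp only [Finset.mem_Icc]; push_cast; omega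
    · simp only [Finset.mem_Icc, Finset.mem_insert]; push_cast; omega

lemma lam_eq (N : ℕ) (m : ℤ) (k : ℕ) (hk : |m| = k) (hkN : k ≤ N + 1) :
    lam N m = ((N : ℂ) + 1 - k) / ((N : ℂ) + 1) := by
  unfold lam
  rw [hk, max_eq_right (by omega)]
  push_cast
  rfl

lemma gc_pos (N n : ℕ) (h : n ≤ N) : Gc N (n : ℤ) = 1 / ((N : ℂ) + 1) := by
  unfold Gc
  rw [lam_eq N n n (by simp) (by omega), lam_eq N ((n : ℤ) + 1) (n + 1) (by
    rw [abs_of_nonneg (by omega)]; push_cast; rfl) (by omega), ← sub_div]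
  congr 1
  push_cast; ring

lemma gc_neg (N n : ℕ) (h : n ≤ N) : Gc N (-(n : ℤ) - 1) = -(1 / ((N : ℂ) + 1)) := by
  unfold Gc
  rw [lam_eq N (-(n : ℤ) - 1) (n + 1) (by
    rw [abs_of_nonpos (by omega)]; push_cast; ring) (by omega),
    lam_eq N (-(n : ℤ) - 1 + 1) n (by
    rw [abs_of_nonpos (by omega)]; ring) (by omega), ← sub_div, ← neg_div]
  congr 1
  push_cast; ring

lemma four_nat (t : Circ) (n : ℕ) : (fourier (n : ℤ) t : ℂ) = (fourier 1 t : ℂ) ^ n := by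
  induction n with
  | zero => simp
  | succ n ih => rw [Nat.cast_succ, fourier_add, ih, pow_succ]

lemma four_neg (t : Circ) (n : ℕ) : (fourier (-(n : ℤ)) t : ℂ) = (fourier (-1) t : ℂ) ^ n := by
  induction n with
  | zero => simp
  | succ n ih =>
    have : (-((n + 1 : ℕ) : ℤ)) = -(n : ℤ) + (-1) := by push_cast; ring
    rw [this, fourier_add, ih, pow_succ]

lemma KN_eq (N : ℕ) (t : Circ) : KN N t = (1 / ((N : ℂ) + 1)) *
    ∑ n ∈ Finset.range (N + 1), ((fourier (-1) t : ℂ) ^ n - (fourier 1 t : ℂ) ^ (n + 1)) := by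
  unfold KN
  rw [sum_sym (fun n => Gc N n * (fourier (-n) t : ℂ)), Finset.mul_sum]
  refine Finset.sum_congr rfl (fun n hn => ?_)
  have hn' : n ≤ N := by have := Finset.mem_range.1 hn; omega
  have e : (-(-(n : ℤ) - 1)) = ((n + 1 : ℕ) : ℤ) := by push_cast; ring
  rw [gc_pos N n hn', gc_neg N n hn', e, four_nat, four_neg]
  ring

section unit
variable {w v : ℂ}

lemma pow_bound (hw : ‖w‖ = 1) (k : ℕ) : ‖1 - w ^ k‖ ≤ k * ‖1 - w‖ := by
  induction k with
  | zero => simp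
  | succ k ih =>
    have : 1 - w ^ (k + 1) = (1 - w ^ k) + w ^ k * (1 - w) := by ring
    rw [this]
    refine (norm_add_le _ _).trans ?_
    rw [norm_mul, norm_pow, hw, one_pow, one_mul]
    push_cast
    linarith

lemma geom_bound (hw : ‖w‖ = 1) (k : ℕ) :
    ‖∑ n ∈ Finset.range k, w ^ n‖ * ‖1 - w‖ ≤ 2 := by
  rw [← norm_mul, geom_sum_mul_neg]
  refine (norm_sub_le _ _).trans ?_
  rw [norm_pow, hw, one_pow, norm_one]
  norm_num

lemma main1 (hw : ‖w‖ = 1) (hv : ‖v‖ = 1) (hvw : v * w = 1) (N : ℕ) :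
    ‖∑ n ∈ Finset.range (N + 1), (v ^ n - w ^ (n + 1))‖ ≤ ((N : ℝ) + 1) ^ 2 * ‖1 - w‖ := by
  have hterm : ∀ n : ℕ, ‖v ^ n - w ^ (n + 1)‖ ≤ (2 * (n : ℝ) + 1) * ‖1 - w‖ := by
    intro n
    have e : v ^ n - w ^ (n + 1) = v ^ n * (1 - w ^ (2 * n + 1)) := by
      have h1 : v ^ n * w ^ n = 1 := by rw [← mul_pow, hvw, one_pow]
      have h2 : v ^ n * w ^ (2 * n + 1) = (v ^ n * w ^ n) * w ^ (n + 1) := by ring
      rw [mul_sub, mul_one, h2, h1, one_mul]
    rw [e, norm_mul, norm_pow, hv, one_pow, one_mul]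
    have := pow_bound hw (2 * n + 1)
    push_cast at this
    exact this
  have hsum : ∀ M : ℕ, ∑ n ∈ Finset.range M, ((2 * (n : ℝ) + 1) * ‖1 - w‖) = (M : ℝ) ^ 2 * ‖1 - w‖ := by
    intro M
    induction M with
    | zero => simp
    | succ M ih => rw [Finset.sum_range_succ, ih]; push_cast; ring
  have := (norm_sum_le (Finset.range (N + 1)) (fun n => v ^ n - w ^ (n + 1))).trans
    (Finset.sum_le_sum (fun n _ => hterm n))
  rw [hsum] at this
  push_cast at this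
  exact this

lemma main2 (hw : ‖w‖ = 1) (hv : ‖v‖ = 1) (hvw : v * w = 1) (N : ℕ) :
    ‖∑ n ∈ Finset.range (N + 1), (v ^ n - w ^ (n + 1))‖ * ‖1 - w‖ ≤ 4 := by
  have e : ∑ n ∈ Finset.range (N + 1), (v ^ n - w ^ (n + 1)) =
      ∑ n ∈ Finset.range (N + 1), v ^ n - w * ∑ n ∈ Finset.range (N + 1), w ^ n := by
    rw [Finset.sum_sub_distrib, Finset.mul_sum]
    congr 1
    exact Finset.sum_congr rfl (fun n _ => by rw [pow_succ, mul_comm])
  have hs : ‖1 - v‖ = ‖1 - w‖ := by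
    have : 1 - v = v * (w - 1) := by rw [mul_sub, hvw, mul_one]
    rw [this, norm_mul, hv, one_mul, norm_sub_rev]
  have h1 := geom_bound hv (N + 1)
  rw [hs] at h1
  have h2 := geom_bound hw (N + 1)
  rw [e]
  calc _ ≤ (‖∑ n ∈ Finset.range (N + 1), v ^ n‖ + ‖w * ∑ n ∈ Finset.range (N + 1), w ^ n‖) *
        ‖1 - w‖ := mul_le_mul_of_nonneg_right (norm_sub_le _ _) (norm_nonneg _)
    _ = ‖∑ n ∈ Finset.range (N + 1), v ^ n‖ * ‖1 - w‖ +
        ‖∑ n ∈ Finset.range (N + 1), w ^ n‖ * ‖1 - w‖ := by rw [norm_mul, hw, one_mul, add_mul]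
    _ ≤ 4 := by linarith

end unit

lemma real_bound {s k a : ℝ} (hs : 0 ≤ s) (hk : 1 ≤ k) (h1 : a ≤ s)
    (h2 : a * (k ^ 2 * s) ≤ 4) :
    a ≤ 9 * (1 / (1 + (k - 1) * s) - 1 / (1 + k * s)) := by
  have p1 : 0 < 1 + (k - 1) * s := by nlinarith [mul_nonneg (by linarith : (0:ℝ) ≤ k - 1) hs]
  have p2 : 0 < 1 + k * s := by nlinarith
  have e : 9 * (1 / (1 + (k - 1) * s) - 1 / (1 + k * s)) =
      9 * s / ((1 + (k - 1) * s) * (1 + k * s)) := by
    field_simp
    ring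
  rw [e, le_div_iff₀ (mul_pos p1 p2)]
  have hle : (1 + (k - 1) * s) * (1 + k * s) ≤ (1 + k * s) ^ 2 := by
    rw [sq]
    exact mul_le_mul_of_nonneg_right (by linarith) p2.le
  rcases le_or_gt a 0 with ha | ha
  · have : a * ((1 + (k - 1) * s) * (1 + k * s)) ≤ 0 :=
      mul_nonpos_of_nonpos_of_nonneg ha (mul_pos p1 p2).le
    linarith
  refine (mul_le_mul_of_nonneg_left hle ha.le).trans ?_
  rcases le_or_gt (k * s) 2 with hu | hu
  · have h3 : (1 + k * s) ^ 2 ≤ 9 := by nlinarith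
    calc a * (1 + k * s) ^ 2 ≤ s * 9 := mul_le_mul h1 h3 (by positivity) hs
      _ = 9 * s := by ring
  · have hspos : 0 < s := by
      rcases hs.eq_or_lt with h | h
      · rw [← h] at hu; linarith
      · exact h
    have h3 : (1 + k * s) ^ 2 ≤ 9 / 4 * (k * s) ^ 2 := by nlinarith
    calc a * (1 + k * s) ^ 2 ≤ a * (9 / 4 * (k * s) ^ 2) := mul_le_mul_of_nonneg_left h3 ha.le
      _ = 9 / 4 * s * (a * (k ^ 2 * s)) := by ring
      _ ≤ 9 / 4 * s * 4 := mul_le_mul_of_nonneg_left h2 (by positivity)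
      _ = 9 * s := by ring

lemma KN_bound (N : ℕ) (t : Circ) : ‖KN N t‖ / ((N : ℝ) + 1) ≤
    9 * (1 / (1 + (N : ℝ) * sd t) - 1 / (1 + ((N : ℝ) + 1) * sd t)) := by
  have hw : ‖(fourier 1 t : ℂ)‖ = 1 := by rw [fourier_apply]; exact Circle.norm_coe _
  have hv : ‖(fourier (-1) t : ℂ)‖ = 1 := by rw [fourier_apply]; exact Circle.norm_coe _
  have hvw : (fourier (-1) t : ℂ) * (fourier 1 t : ℂ) = 1 := by
    rw [← fourier_add]; simp
  have hN : (0 : ℝ) < (N : ℝ) + 1 := by positivity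
  have hKn : ‖KN N t‖ = (1 / ((N : ℝ) + 1)) *
      ‖∑ n ∈ Finset.range (N + 1), ((fourier (-1) t : ℂ) ^ n - (fourier 1 t : ℂ) ^ (n + 1))‖ := by
    rw [KN_eq, norm_mul]
    congr 1
    have : (1 / ((N : ℂ) + 1)) = ((1 / ((N : ℝ) + 1) : ℝ) : ℂ) := by push_cast; rfl
    rw [this, Complex.norm_real, Real.norm_of_nonneg (by positivity)]
  have m1 := main1 hw hv hvw N
  have m2 := main2 hw hv hvw N
  have hsd : sd t = ‖(1 : ℂ) - (fourier 1 t : ℂ)‖ := rfl
  rw [← hsd] at m1 m2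
  obtain ⟨T, hT⟩ : ∃ T, T = ‖∑ n ∈ Finset.range (N + 1),
    ((fourier (-1) t : ℂ) ^ n - (fourier 1 t : ℂ) ^ (n + 1))‖ := ⟨_, rfl⟩
  rw [← hT] at m1 m2 hKn
  have hs0 : 0 ≤ sd t := norm_nonneg _
  have h := real_bound (s := sd t) (k := (N : ℝ) + 1) (a := ‖KN N t‖ / ((N : ℝ) + 1)) hs0
    (by have : (0 : ℝ) ≤ N := Nat.cast_nonneg _; linarith) ?_ ?_
  · have e : ((N : ℝ) + 1 - 1) = N := by ring
    rw [e] at h
    exact h
  · rw [hKn, div_le_iff₀ hN, one_div, inv_mul_le_iff₀ hN]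
    calc T ≤ ((N : ℝ) + 1) ^ 2 * sd t := m1
      _ = ((N : ℝ) + 1) * (sd t * ((N : ℝ) + 1)) := by ring
  · rw [hKn]
    have : 1 / ((N : ℝ) + 1) * T / ((N : ℝ) + 1) * (((N : ℝ) + 1) ^ 2 * sd t) = T * sd t := by
      field_simp
    rw [this]
    exact m2

lemma KN_cont (N : ℕ) : Continuous (KN N) := by
  unfold KN
  exact continuous_finsetSum _ (fun n _ => continuous_const.mul (fourier (-n)).continuous)

lemma sum_KN (M : ℕ) (t : Circ) :
    ∑ N ∈ Finset.range M, ‖KN N t‖ / ((N : ℝ) + 1) ≤ 9 := by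
  have h : ∑ N ∈ Finset.range M, ‖KN N t‖ / ((N : ℝ) + 1) ≤ 9 * (1 - 1 / (1 + (M : ℝ) * sd t)) := by
    induction M with
    | zero => simp
    | succ M ih =>
      rw [Finset.sum_range_succ]
      have := KN_bound M t
      push_cast
      linarith
  have hs0 : 0 ≤ sd t := norm_nonneg _
  have : 0 ≤ 1 / (1 + (M : ℝ) * sd t) := by positivity
  linarith

theorem main : S_HAR := by
  intro f
  have hf := L1.integrable_coeFn f
  have hint : ∀ N : ℕ, Integrable (fun t => (‖KN N t‖ / ((N : ℝ) + 1)) * ‖f t‖) mu := by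
    intro N
    have hc : Continuous (fun t => ‖KN N t‖ / ((N : ℝ) + 1)) := (KN_cont N).norm.div_const _
    refine hf.norm.bdd_mul (c := 9) hc.aestronglyMeasurable (ae_of_all _ (fun t => ?_))
    rw [Real.norm_of_nonneg (by positivity)]
    have h1 := sum_KN (N + 1) t
    rw [Finset.sum_range_succ] at h1
    have h2 : 0 ≤ ∑ N ∈ Finset.range N, ‖KN N t‖ / ((N : ℝ) + 1) :=
      Finset.sum_nonneg (fun _ _ => by positivity)
    linarith
  refine summable_of_sum_range_le (c := 9 * ∫ t, ‖f t‖ ∂mu) (fun N => by positivity) (fun M => ?_)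
  calc ∑ N ∈ Finset.range M, ‖cN f N‖ / ((N : ℝ) + 1)
      ≤ ∑ N ∈ Finset.range M, ∫ t, (‖KN N t‖ / ((N : ℝ) + 1)) * ‖f t‖ ∂mu := by
        refine Finset.sum_le_sum (fun N _ => ?_)
        have e : ∀ t, (‖KN N t‖ / ((N : ℝ) + 1)) * ‖f t‖ = (1 / ((N : ℝ) + 1)) * ‖KN N t * f t‖ := by
          intro t; rw [norm_mul]; ring
        simp_rw [e]
        rw [integral_const_mul, cN_eq, div_eq_mul_one_div, mul_comm]
        exact mul_le_mul_of_nonneg_left (norm_integral_le_integral_norm _) (by positivity)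
    _ = ∫ t, ∑ N ∈ Finset.range M, (‖KN N t‖ / ((N : ℝ) + 1)) * ‖f t‖ ∂mu :=
        (integral_finsetSum _ (fun N _ => hint N)).symm
    _ ≤ ∫ t, 9 * ‖f t‖ ∂mu := by
        refine integral_mono (integrable_finsetSum _ (fun N _ => hint N)) (hf.norm.const_mul 9) ?_
        intro t
        simp only
        rw [← Finset.sum_mul]
        exact mul_le_mul_of_nonneg_right (sum_KN M t) (norm_nonneg _)
    _ = _ := integral_const_mul _ _

end

end Pool.Agent.W584.SYN.HAR
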